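import Pool.Agent.H499.IR.Gram
import Pool.Agent.H499.PW.Iso

/-! Irreducible representations are not congruent to combinations of small representations. -/

set_option autoImplicit false
set_option linter.all false

namespace Pool.Agent.H499.IR

open Matrix Module MeasureTheory NumberField IsDedekindDomain Topology Filter
open Pool.Agent.W401.Cheb (GK IsFrob IsInert)
open Pool.Agent.H499.CM

section chain

variable {A : Type*} [CommRing A] {G : Type*} [Group G] [MeasurableSpace G] [MeasurableMul G]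

theorem comb_eq (hA : ∀ a b : A, a ∣ b ∨ b ∣ a) {n k : ℕ} (μ : Measure G) [IsProbabilityMeasure μ]
    [μ.IsMulLeftInvariant] (R : G →* Matrix (Fin n) (Fin n) A) (hR : (Set.range R).Finite)
    (d : Fin k → ℕ) (c : Fin k → A) (r : ∀ i, G →* Matrix (Fin (d i)) (Fin (d i)) A)
    (hr : ∀ i, (Set.range (r i)).Finite) (Z : Set G)
    (hZ : ((n ^ 2 + ∑ i, d i ^ 2 : ℕ) : ENNReal) * μ Zᶜ < 1)
    (h : ∀ x ∈ Z, (R x).trace = ∑ i, c i * (r i x).trace) (x : G) :
    (R x).trace = ∑ i, c i * (r i x).trace := by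
  classical
  let κ : Type := (Fin n × Fin n) ⊕ (Σ i : Fin k, Fin (d i) × Fin (d i))
  have hκ : Fintype.card κ = n ^ 2 + ∑ i, d i ^ 2 := by
    show Fintype.card ((Fin n × Fin n) ⊕ (Σ i : Fin k, Fin (d i) × Fin (d i))) = _
    rw [Fintype.card_sum, Fintype.card_prod, Fintype.card_fin, sq, Fintype.card_sigma]
    congr 1
    refine Finset.sum_congr rfl fun i _ => ?_
    rw [Fintype.card_prod, Fintype.card_fin, sq]
  let ent : Matrix (Fin n) (Fin n) A → (∀ i, Matrix (Fin (d i)) (Fin (d i)) A) → κ → A := fun M L =>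
    Sum.elim (fun x => M x.1 x.2) (fun x => L x.1 x.2.1 x.2.2)
  let y : G → κ → A := fun g => ent (R g) fun i => r i g
  have hfin : (Set.range y).Finite := by
    have h1 : (Set.range fun g => (R g, fun i => r i g)).Finite := by
      refine (hR.prod (Set.Finite.pi fun i => hr i)).subset ?_
      rintro _ ⟨g, rfl⟩
      exact ⟨⟨g, rfl⟩, fun i _ => ⟨g, rfl⟩⟩
    refine (h1.image fun z => ent z.1 z.2).subset ?_
    rintro _ ⟨g, rfl⟩
    exact ⟨_, ⟨g, rfl⟩, rfl⟩
  obtain ⟨g, hg⟩ := chain_coeff hA y hfin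
  rw [← hκ] at hZ
  obtain ⟨z, hz⟩ := exists_translate μ g Z hZ
  obtain ⟨a, ha⟩ := hg (x * z⁻¹)
  have e : x = (x * z⁻¹) * z := by group
  have h1 : R (x * z⁻¹) = ∑ s, a s • R (g s) := by
    ext i j
    have := congrFun ha (Sum.inl (i, j))
    rw [Finset.sum_apply] at this
    rw [Matrix.sum_apply]
    exact this
  have h2 : ∀ i, r i (x * z⁻¹) = ∑ s, a s • r i (g s) := by
    intro i
    ext s t
    have := congrFun ha (Sum.inr ⟨i, s, t⟩)
    rw [Finset.sum_apply] at this
    rw [Matrix.sum_apply]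
    exact this
  have h3 : R x = ∑ s, a s • R (g s * z) := by
    conv_lhs => rw [e, map_mul, h1, Finset.sum_mul]
    refine Finset.sum_congr rfl fun i _ => ?_
    rw [smul_mul_assoc, ← map_mul]
  have h4 : ∀ i, r i x = ∑ s, a s • r i (g s * z) := by
    intro i
    conv_lhs => rw [e, map_mul, h2, Finset.sum_mul]
    refine Finset.sum_congr rfl fun j _ => ?_
    rw [smul_mul_assoc, ← map_mul]
  rw [h3, Matrix.trace_sum]
  have h5 : ∀ i, c i * (r i x).trace = ∑ s, a s * (c i * (r i (g s * z)).trace) := by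
    intro i
    rw [h4, Matrix.trace_sum, Finset.mul_sum]
    refine Finset.sum_congr rfl fun s _ => ?_
    rw [Matrix.trace_smul, smul_eq_mul]
    ring
  rw [Finset.sum_congr rfl fun i _ => h5 i, Finset.sum_comm]
  refine Finset.sum_congr rfl fun s _ => ?_
  rw [Matrix.trace_smul, h _ (hz s), smul_eq_mul, Finset.mul_sum]

end chain

variable {K : Type} [Field K] [NumberField K]

theorem finite_range_mat {A : Type} [CommRing A] {m : ℕ} {r : GK K →* GL (Fin m) A}
    (hr : IsOpen (r.ker : Set (GK K))) :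
    (Set.range ((Units.coeHom (Matrix (Fin m) (Fin m) A)).comp r)).Finite := by
  refine ((finite_range_of_ker hr).image fun u : GL (Fin m) A => (u : Matrix (Fin m) (Fin m) A)).subset ?_
  rintro _ ⟨g, rfl⟩
  exact ⟨_, ⟨g, rfl⟩, rfl⟩

/-- Galois representations -/
theorem comb_eq_galois {A : Type} [CommRing A] (hA : ∀ a b : A, a ∣ b ∨ b ∣ a) {n k : ℕ}
    (R : GK K →* GL (Fin n) A) (hR : IsOpen (R.ker : Set (GK K))) (d : Fin k → ℕ) (c : Fin k → A)
    (r : ∀ i, GK K →* GL (Fin (d i)) A) (hr : ∀ i, IsOpen ((r i).ker : Set (GK K)))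
    (Bad : HeightOneSpectrum (𝓞 K) → Prop) (δ : ℝ) (hδ : ((n ^ 2 + ∑ i, d i ^ 2 : ℕ) : ℝ) * δ < 1)
    (hB : Few Bad δ) (h : ∀ v, ¬ Bad v → ∀ σ, IsFrob v σ → (R σ⁻¹ : Matrix (Fin n) (Fin n) A).trace =
      ∑ i, c i * (r i σ⁻¹ : Matrix (Fin (d i)) (Fin (d i)) A).trace) (σ : GK K) :
    (R σ : Matrix (Fin n) (Fin n) A).trace = ∑ i, c i * (r i σ : Matrix (Fin (d i)) (Fin (d i)) A).trace := by
  classical
  letI : MeasurableSpace (GK K) := borel _
  haveI : BorelSpace (GK K) := ⟨rfl⟩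
  set μ : Measure (GK K) := Measure.haarMeasure (⊤ : TopologicalSpace.PositiveCompacts (GK K)) with hμ
  haveI : IsProbabilityMeasure μ := ⟨by
    have := Measure.haarMeasure_self (K₀ := (⊤ : TopologicalSpace.PositiveCompacts (GK K)))
    rw [hμ]
    rwa [TopologicalSpace.PositiveCompacts.coe_top] at this⟩
  haveI : MeasurableMul (GK K) := inferInstance
  -- one homomorphism with open kernel
  let Φ : GK K →* GL (Fin n) A × (∀ i, GL (Fin (d i)) A) := R.prod (MonoidHom.mk' (fun g i => r i g) (by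
    intro a b
    funext i
    exact map_mul (r i) a b))
  have hΦ : IsOpen (Φ.ker : Set (GK K)) := by
    have e : (Φ.ker : Set (GK K)) = (R.ker : Set (GK K)) ∩ ⋂ i, ((r i).ker : Set (GK K)) := by
      ext g
      simp only [Set.mem_inter_iff, Set.mem_iInter]
      constructor
      · intro hg
        have hg' : Φ g = 1 := hg
        exact ⟨congrArg Prod.fst hg', fun i => congrFun (congrArg Prod.snd hg') i⟩
      · rintro ⟨h1, h2⟩
        show Φ g = 1
        exact Prod.ext h1 (funext fun i => h2 i)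
    rw [e]
    exact hR.inter (isOpen_iInter_of_finite hr)
  let Z : Set (GK K) := {x | (R x : Matrix (Fin n) (Fin n) A).trace =
    ∑ i, c i * (r i x : Matrix (Fin (d i)) (Fin (d i)) A).trace}
  have hZ : IsClosed Z := isClosed_of_ker hΦ {u | (u.1 : Matrix (Fin n) (Fin n) A).trace =
    ∑ i, c i * (u.2 i : Matrix (Fin (d i)) (Fin (d i)) A).trace}
  have hμZ := measure_compl_le μ hB Z hZ h
  exact comb_eq hA μ ((Units.coeHom _).comp R) (finite_range_mat hR) d c (fun i => (Units.coeHom _).comp (r i))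
    (fun i => finite_range_mat (hr i)) Z (mul_lt_one hδ hμZ) (fun x hx => hx) σ

variable {ℓ : ℕ} [Fact ℓ.Prime] {n : ℕ}

/-- the Gram determinant modulo `ℓ ^ m` -/
theorem gram_mod {ρ : GK K →* GL (Fin n) (PadicAlgCl ℓ)} {N : GK K →* Matrix (Fin n) (Fin n) (OO ℓ)}
    (h : IntModel ρ N) (g : Fin (n ^ 2) → GK K) :
    (((Matrix.of fun i j => (N (g i * g j)).trace).det : OO ℓ) : PadicAlgCl ℓ) = gram ρ g := by
  have e : (Matrix.of fun i j => (ρ (g i * g j) : Matrix (Fin n) (Fin n) (PadicAlgCl ℓ)).trace) =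
      (Matrix.of fun i j => (N (g i * g j)).trace).map (algebraMap (OO ℓ) (PadicAlgCl ℓ)) := by
    ext i j
    rw [Matrix.of_apply, Matrix.map_apply, Matrix.of_apply, ← h.trace]
    rfl
  rw [gram, e]
  exact (RingHom.map_det (algebraMap (OO ℓ) (PadicAlgCl ℓ)) _)

/-- **No small combinations.** -/
theorem not_comb {ρ : GK K →* GL (Fin n) (PadicAlgCl ℓ)} {N : GK K →* Matrix (Fin n) (Fin n) (OO ℓ)}
    (h : IntModel ρ N) (g : Fin (n ^ 2) → GK K) (m : ℕ) (hg : ‖(ℓ : PadicAlgCl ℓ)‖ ^ m < ‖gram ρ g‖)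
    {k : ℕ} (d : Fin k → ℕ) (c : Fin k → RR ℓ m) (r : ∀ i, GK K →* GL (Fin (d i)) (RR ℓ m))
    (hd : ∑ i, d i ^ 2 < n ^ 2) (htr : ∀ σ, mk m (N σ).trace =
      ∑ i, c i * (r i σ : Matrix (Fin (d i)) (Fin (d i)) (RR ℓ m)).trace) : False := by
  have h1 := gram_eq_zero d c (fun i => (Units.coeHom (Matrix (Fin (d i)) (Fin (d i)) (RR ℓ m))).comp (r i)) hd g
  have h2 : (Matrix.of fun s t => ∑ i, c i * ((Units.coeHom (Matrix (Fin (d i)) (Fin (d i)) (RR ℓ m))).comp (r i)
      (g s * g t)).trace) = (Matrix.of fun i j => (N (g i * g j)).trace).map (mk m) := by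
    ext s t
    rw [Matrix.of_apply, Matrix.map_apply, Matrix.of_apply]
    exact (htr (g s * g t)).symm
  rw [h2] at h1
  have h3 : mk m (Matrix.of fun i j => (N (g i * g j)).trace).det = 0 := by
    rw [RingHom.map_det]
    exact h1
  rw [mk_eq_zero, gram_mod h g] at h3
  exact absurd h3 (not_le.2 hg)

/-- the Gram determinants of representations with congruent traces -/
theorem gram_near {ρ ρ' : GK K →* GL (Fin n) (PadicAlgCl ℓ)} {N N' : GK K →* Matrix (Fin n) (Fin n) (OO ℓ)}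
    (h : IntModel ρ N) (h' : IntModel ρ' N') (g : Fin (n ^ 2) → GK K) (m : ℕ)
    (hg : ‖(ℓ : PadicAlgCl ℓ)‖ ^ m < ‖gram ρ g‖) (htr : ∀ σ, mk m (N σ).trace = mk m (N' σ).trace) :
    ‖gram ρ' g‖ = ‖gram ρ g‖ := by
  have h1 : mk m (Matrix.of fun i j => (N (g i * g j)).trace).det =
      mk m (Matrix.of fun i j => (N' (g i * g j)).trace).det := by
    rw [RingHom.map_det, RingHom.map_det]
    congr 1
    ext i j
    exact htr (g i * g j)
  rw [mk_eq, gram_mod h g, gram_mod h' g] at h1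
  have h2 : ‖gram ρ g - gram ρ' g‖ < ‖gram ρ g‖ := lt_of_le_of_lt h1 hg
  have e : gram ρ' g = gram ρ g + (-(gram ρ g - gram ρ' g)) := by ring
  rw [e]
  rw [IsUltrametricDist.norm_add_eq_max_of_norm_ne_norm (by rw [norm_neg]; exact h2.ne'), norm_neg,
    max_eq_left h2.le]

end Pool.Agent.H499.IR
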