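import Pool.Graph.R_pool_sql_team_seeded_64922ed1.X320.DS.Trace
import Pool.Graph.R_pool_sql_team_seeded_64922ed1.X320.RU.Alg

/-! The Gram determinants of the traces of a representation: they vanish for sums of small representations over any
ring, and one of them does not vanish if and only if a representation over an algebraically closed field is
irreducible. -/

set_option autoImplicit false
set_option linter.all false

namespace Pool.Agent.H499.IR

open Matrix Module
open Pool.Agent.X320.DS (Semisimple Stable toEnd toEnd_apply alg stable_alg alg_eq_span trace_nondeg)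
open Pool.Agent.X320.RU (burnside)

section general

variable {A : Type*} [CommRing A]

/-- a product which factors through a small free module has determinant zero -/
theorem det_eq_zero_of_factor {N : ℕ} {κ : Type*} [Fintype κ] (h : Fintype.card κ < N) (X : Matrix (Fin N) κ A)
    (C : Matrix κ (Fin N) A) : (X * C).det = 0 := by
  classical
  obtain ⟨f⟩ := Function.Embedding.nonempty_of_card_le (α := κ) (β := Fin N) (by rw [Fintype.card_fin]; exact h.le)
  have hns : ¬ Function.Surjective f := by
    intro hs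
    have := Fintype.card_le_of_surjective f hs
    rw [Fintype.card_fin] at this
    omega
  obtain ⟨i0, hi0⟩ := not_forall.1 hns
  let X' : Matrix (Fin N) (Fin N) A := Matrix.of fun s j => ∑ k, if f k = j then X s k else 0
  let C' : Matrix (Fin N) (Fin N) A := Matrix.of fun j t => ∑ k, if f k = j then C k t else 0
  have e : X * C = X' * C' := by
    ext s t
    rw [Matrix.mul_apply, Matrix.mul_apply]
    have h1 : ∀ j, X' s j * C' j t = ∑ k, if f k = j then X s k * C k t else 0 := by
      intro j
      show (∑ k, if f k = j then X s k else 0) * (∑ k, if f k = j then C k t else 0) = _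
      rw [Finset.sum_mul]
      refine Finset.sum_congr rfl fun k _ => ?_
      by_cases hk : f k = j
      · rw [if_pos hk, if_pos hk, Finset.sum_eq_single k]
        · rw [if_pos hk]
        · intro k' _ hk'
          rw [if_neg]
          intro hk2
          exact hk' (f.injective (hk2.trans hk.symm))
        · intro hk'
          exact absurd (Finset.mem_univ k) hk'
      · rw [if_neg hk, if_neg hk, zero_mul]
    rw [Finset.sum_congr rfl fun j _ => h1 j, Finset.sum_comm]
    refine Finset.sum_congr rfl fun k _ => ?_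
    rw [Finset.sum_ite_eq Finset.univ (f k) fun _ => X s k * C k t, if_pos (Finset.mem_univ _)]
  rw [e, Matrix.det_mul]
  have h2 : X'.det = 0 := by
    refine Matrix.det_eq_zero_of_column_eq_zero i0 fun s => ?_
    show (∑ k, if f k = i0 then X s k else 0) = 0
    refine Finset.sum_eq_zero fun k _ => ?_
    rw [if_neg]
    intro hk
    exact hi0 ⟨k, hk⟩
  rw [h2, zero_mul]

variable {Γ : Type*} [Group Γ]

/-- The Gram determinant of a linear combination of the traces of representations vanishes if there are more elements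
than matrix entries. -/
theorem gram_eq_zero {k : ℕ} (d : Fin k → ℕ) (c : Fin k → A) (r : ∀ i, Γ →* Matrix (Fin (d i)) (Fin (d i)) A)
    {N : ℕ} (hN : ∑ i, d i ^ 2 < N) (g : Fin N → Γ) :
    (Matrix.of fun s t => ∑ i, c i * (r i (g s * g t)).trace).det = 0 := by
  classical
  let κ : Type := Σ i : Fin k, Fin (d i) × Fin (d i)
  have hκ : Fintype.card κ < N := by
    have : Fintype.card κ = ∑ i, d i ^ 2 := by
      show Fintype.card (Σ i : Fin k, Fin (d i) × Fin (d i)) = _
      rw [Fintype.card_sigma]
      refine Finset.sum_congr rfl fun i _ => ?_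
      rw [Fintype.card_prod, Fintype.card_fin, sq]
    rwa [this]
  let X : Matrix (Fin N) κ A := Matrix.of fun s x => r x.1 (g s) x.2.1 x.2.2
  let C : Matrix κ (Fin N) A := Matrix.of fun x t => c x.1 * r x.1 (g t) x.2.2 x.2.1
  have e : (Matrix.of fun s t => ∑ i, c i * (r i (g s * g t)).trace) = X * C := by
    ext s t
    rw [Matrix.of_apply, Matrix.mul_apply, Fintype.sum_sigma]
    refine Finset.sum_congr rfl fun i _ => ?_
    rw [Fintype.sum_prod_type, map_mul, Matrix.trace, Finset.mul_sum]
    refine Finset.sum_congr rfl fun a _ => ?_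
    rw [Matrix.diag_apply, Matrix.mul_apply, Finset.mul_sum]
    refine Finset.sum_congr rfl fun b _ => ?_
    show c i * (r i (g s) a b * r i (g t) b a) = r i (g s) a b * (c i * r i (g t) b a)
    ring
  rw [e]
  exact det_eq_zero_of_factor hκ X C

end general

section irreducible

variable {Γ : Type*} [Group Γ] {k : Type*} [Field k] {n : ℕ}

/-- `ρ` is irreducible -/
def Irr (ρ : Γ →* GL (Fin n) k) : Prop := 0 < n ∧ ∀ W : Submodule k (Fin n → k),
  (∀ g, ∀ w ∈ W, (ρ g : Matrix (Fin n) (Fin n) k) *ᵥ w ∈ W) → W = ⊥ ∨ W = ⊤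

/-- the Gram determinant -/
def gram (ρ : Γ →* GL (Fin n) k) (g : Fin (n ^ 2) → Γ) : k :=
  (Matrix.of fun i j => (ρ (g i * g j) : Matrix (Fin n) (Fin n) k).trace).det

theorem irr_semisimple {ρ : Γ →* GL (Fin n) k} (h : Irr ρ) : Semisimple ρ := by
  intro W hW
  rcases h.2 W hW with rfl | rfl
  · exact ⟨⊤, fun _ _ _ => Submodule.mem_top, isCompl_bot_top⟩
  · exact ⟨⊥, fun g w hw => by
      rw [Submodule.mem_bot] at hw ⊢
      rw [hw, Matrix.mulVec_zero], isCompl_top_bot⟩

theorem irr_span [IsAlgClosed k] {ρ : Γ →* GL (Fin n) k} (h : Irr ρ) :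
    Submodule.span k (Set.range (toEnd ρ)) = ⊤ := by
  obtain ⟨hn, hW⟩ := h
  haveI : Nontrivial (Fin n → k) := by
    haveI : Nonempty (Fin n) := ⟨⟨0, hn⟩⟩
    exact Function.nontrivial
  haveI : IsSimpleModule (alg ρ) (Fin n → k) := by
    refine (isSimpleModule_iff _ _).2 ⟨?_⟩
    intro W
    have hWs : ∀ g, ∀ w ∈ W.restrictScalars k, (ρ g : Matrix (Fin n) (Fin n) k) *ᵥ w ∈ W.restrictScalars k := by
      intro g w hw
      have h := W.smul_mem ⟨toEnd ρ g, Algebra.subset_adjoin ⟨g, rfl⟩⟩ hw
      rw [← toEnd_apply]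
      exact h
    rcases hW _ hWs with h1 | h1
    · left
      exact (Submodule.restrictScalars_eq_bot_iff k _ _).1 h1
    · right
      exact (Submodule.restrictScalars_eq_top_iff k _ _).1 h1
  rw [← alg_eq_span, Submodule.eq_top_iff']
  intro x
  obtain ⟨r, hr⟩ := burnside (k := k) (R := alg ρ) (S := Fin n → k) x
  have e : x = r.1 := by
    apply LinearMap.ext
    intro s
    exact (hr s).symm
  rw [e]
  exact r.2

theorem exists_gram [IsAlgClosed k] [CharZero k] {ρ : Γ →* GL (Fin n) k} (h : Irr ρ) :
    ∃ g : Fin (n ^ 2) → Γ, gram ρ g ≠ 0 := by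
  classical
  have hspan := irr_span h
  obtain ⟨f, hf1, hf2, hf3⟩ := Submodule.exists_fun_fin_finrank_span_eq k (Set.range (toEnd ρ))
  have hfr : finrank k (Submodule.span k (Set.range (toEnd ρ))) = n ^ 2 := by
    rw [hspan, finrank_top, Module.finrank_linearMap, Module.finrank_fin_fun, sq]
  choose g hg using hf1
  refine ⟨fun i => g (Fin.cast hfr.symm i), fun h0 => ?_⟩
  obtain ⟨v, hv0, hv⟩ := Matrix.exists_mulVec_eq_zero_iff.2 h0
  have htr : ∀ z, LinearMap.trace k (Fin n → k) (toEnd ρ z) = (ρ z : Matrix (Fin n) (Fin n) k).trace :=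
    fun z => Matrix.trace_toLin'_eq _
  set x : Module.End k (Fin n → k) := ∑ j, v j • toEnd ρ (g (Fin.cast hfr.symm j)) with hx
  have hgen : ∀ i, LinearMap.trace k (Fin n → k) (f i * x) = 0 := by
    intro i
    have h1 := congrFun hv (Fin.cast hfr i)
    rw [Matrix.mulVec, dotProduct] at h1
    rw [hx, Finset.mul_sum, map_sum]
    refine Eq.trans ?_ h1
    refine Finset.sum_congr rfl fun j _ => ?_
    rw [mul_smul_comm, map_smul, ← hg i, ← map_mul, htr]
    show v j • _ = (ρ (g (Fin.cast hfr.symm (Fin.cast hfr i)) * g (Fin.cast hfr.symm j)) :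
      Matrix (Fin n) (Fin n) k).trace * v j
    rw [smul_eq_mul, mul_comm]
    rfl
  have hxalg : x ∈ alg ρ := by
    rw [hx]
    exact (alg ρ).sum_mem fun j _ => (alg ρ).smul_mem (Algebra.subset_adjoin ⟨_, rfl⟩) _
  have hx0 : x = 0 := by
    refine trace_nondeg (irr_semisimple h) (by exact_mod_cast n.factorial_ne_zero) hxalg fun a ha => ?_
    have ha' : a ∈ Submodule.span k (Set.range f) := by
      rw [hf2, ← alg_eq_span]
      exact ha
    refine Submodule.span_induction (p := fun a _ => LinearMap.trace k (Fin n → k) (a * x) = 0) ?_ ?_ ?_ ?_ ha'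
    · rintro _ ⟨i, rfl⟩
      exact hgen i
    · rw [zero_mul, map_zero]
    · intro a b _ _ h1 h2
      rw [add_mul, map_add, h1, h2, add_zero]
    · intro c a _ h1
      rw [smul_mul_assoc, map_smul, h1, smul_zero]
  apply hv0
  funext j
  have h5 : ∑ i, v (Fin.cast hfr i) • f i = 0 := by
    rw [← hx0, hx]
    refine Fintype.sum_equiv (finCongr hfr) _ _ fun i => ?_
    rw [← hg i]
    rfl
  have h6 := Fintype.linearIndependent_iff.1 hf3 (fun i => v (Fin.cast hfr i)) h5 (Fin.cast hfr.symm j)
  exact h6

theorem irr_of_gram [NeZero n] {ρ : Γ →* GL (Fin n) k} {g : Fin (n ^ 2) → Γ} (h : gram ρ g ≠ 0) : Irr ρ := by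
  classical
  refine ⟨Nat.pos_of_ne_zero (NeZero.ne n), fun W hW => ?_⟩
  have htr : ∀ z, LinearMap.trace k (Fin n → k) (toEnd ρ z) = (ρ z : Matrix (Fin n) (Fin n) k).trace :=
    fun z => Matrix.trace_toLin'_eq _
  have hli : LinearIndependent k fun j => toEnd ρ (g j) := by
    rw [Fintype.linearIndependent_iff]
    intro c hc
    by_contra hcon
    push Not at hcon
    obtain ⟨i0, hi0⟩ := hcon
    apply h
    refine Matrix.exists_mulVec_eq_zero_iff.1 ⟨c, fun h0 => hi0 (congrFun h0 i0), ?_⟩
    funext i
    rw [Matrix.mulVec, dotProduct]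
    have h1 : LinearMap.trace k (Fin n → k) (toEnd ρ (g i) * ∑ j, c j • toEnd ρ (g j)) = 0 := by
      rw [hc, mul_zero, map_zero]
    rw [Finset.mul_sum, map_sum] at h1
    refine Eq.trans ?_ h1
    refine Finset.sum_congr rfl fun j _ => ?_
    rw [mul_smul_comm, map_smul, ← map_mul, htr, smul_eq_mul, mul_comm]
    rfl
  have hsp : Submodule.span k (Set.range fun j => toEnd ρ (g j)) = ⊤ := by
    haveI : Nonempty (Fin (n ^ 2)) := ⟨⟨0, pow_pos (Nat.pos_of_ne_zero (NeZero.ne n)) 2⟩⟩
    refine hli.span_eq_top_of_card_eq_finrank ?_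
    rw [Fintype.card_fin, Module.finrank_linearMap, Module.finrank_fin_fun, sq]
  have hall : ∀ x : Module.End k (Fin n → k), ∀ w ∈ W, x w ∈ W := by
    intro x
    have hx : x ∈ Submodule.span k (Set.range fun j => toEnd ρ (g j)) := by rw [hsp]; trivial
    refine Submodule.span_induction (p := fun x _ => ∀ w ∈ W, x w ∈ W) ?_ ?_ ?_ ?_ hx
    · rintro _ ⟨j, rfl⟩ w hw
      show toEnd ρ (g j) w ∈ W
      rw [toEnd_apply]
      exact hW _ w hw
    · intro w _
      exact W.zero_mem
    · intro a b _ _ ha hb w hw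
      exact W.add_mem (ha w hw) (hb w hw)
    · intro c a _ ha w hw
      exact W.smul_mem c (ha w hw)
  by_contra hcon
  push Not at hcon
  obtain ⟨h1, h2⟩ := hcon
  obtain ⟨w, hw, hw0⟩ := Submodule.exists_mem_ne_zero_of_ne_bot h1
  apply h2
  rw [Submodule.eq_top_iff']
  intro u
  obtain ⟨φ, hφ⟩ := Module.Projective.exists_dual_ne_zero k hw0
  have h3 := hall ((LinearMap.toSpanSingleton k (Fin n → k) ((φ w)⁻¹ • u)).comp φ) w hw
  have h4 : ((LinearMap.toSpanSingleton k (Fin n → k) ((φ w)⁻¹ • u)).comp φ) w = u := by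
    rw [LinearMap.comp_apply, LinearMap.toSpanSingleton_apply, smul_smul, mul_inv_cancel₀ hφ, one_smul]
  rwa [h4] at h3

end irreducible

end Pool.Agent.H499.IR
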