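import Pool.Agent.H499.IR.Comb

/-! A reducible semisimple representation is a sum of two, modulo all powers of `ℓ`. -/

set_option autoImplicit false
set_option linter.all false

namespace Pool.Agent.H499.IR

open Matrix Module NumberField IsDedekindDomain Topology Filter
open Pool.Agent.X320.DS (Semisimple Stable toEnd toEnd_apply)
open Pool.Agent.W401.Cheb (GK IsFrob IsInert)
open Pool.Agent.H499.CM

section split

variable {Γ : Type*} [Group Γ] {k : Type*} [Field k] {n : ℕ}

theorem exists_split {ρ : Γ →* GL (Fin n) k} (hρ : Semisimple ρ) (hn : 0 < n) (hirr : ¬ Irr ρ) :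
    ∃ (a b : ℕ), 0 < a ∧ 0 < b ∧ a + b = n ∧ ∃ (r₁ : Γ →* Matrix (Fin a) (Fin a) k)
      (r₂ : Γ →* Matrix (Fin b) (Fin b) k), (∀ g, (r₁ g).trace + (r₂ g).trace =
        (ρ g : Matrix (Fin n) (Fin n) k).trace) ∧
      (∀ i j, ∃ (φ w : Fin n → k), ∀ g, r₁ g i j = φ ⬝ᵥ ((ρ g : Matrix (Fin n) (Fin n) k) *ᵥ w)) ∧
      ∀ i j, ∃ (φ w : Fin n → k), ∀ g, r₂ g i j = φ ⬝ᵥ ((ρ g : Matrix (Fin n) (Fin n) k) *ᵥ w) := by
  classical
  have h1 : ∃ W : Submodule k (Fin n → k), Stable ρ W ∧ W ≠ ⊥ ∧ W ≠ ⊤ := by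
    by_contra hcon
    push Not at hcon
    apply hirr
    refine ⟨hn, fun W hW => ?_⟩
    by_cases h : W = ⊥
    · exact Or.inl h
    · exact Or.inr (hcon W hW h)
  obtain ⟨W, hW, hWb, hWt⟩ := h1
  obtain ⟨W', hW', hc⟩ := hρ W hW
  -- general construction of the action on a stable subspace with a complement
  have hst : ∀ V : Submodule k (Fin n → k), Stable ρ V → ∀ g, ∀ w ∈ V, toEnd ρ g w ∈ V := by
    intro V hV g w hw
    rw [toEnd_apply]
    exact hV g w hw
  have key : ∀ (V V' : Submodule k (Fin n → k)) (hV : Stable ρ V), IsCompl V V' →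
      ∃ r : Γ →* Matrix (Fin (finrank k V)) (Fin (finrank k V)) k,
        (∀ g, (r g).trace = LinearMap.trace k V ((toEnd ρ g).restrict (hst V hV g))) ∧
        ∀ i j, ∃ (φ w : Fin n → k), ∀ g, r g i j = φ ⬝ᵥ ((ρ g : Matrix (Fin n) (Fin n) k) *ᵥ w) := by
    intro V V' hV hVV'
    let bV := finBasis k V
    let res : Γ → (V →ₗ[k] V) := fun g => (toEnd ρ g).restrict (hst V hV g)
    have hres1 : res 1 = LinearMap.id := by
      apply LinearMap.ext
      intro v
      apply Subtype.ext
      show toEnd ρ 1 (v : Fin n → k) = v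
      rw [map_one]
      rfl
    have hresm : ∀ g h, res (g * h) = res g ∘ₗ res h := by
      intro g h
      apply LinearMap.ext
      intro v
      apply Subtype.ext
      show toEnd ρ (g * h) (v : Fin n → k) = toEnd ρ g (toEnd ρ h v)
      rw [map_mul]
      rfl
    have hm1 : LinearMap.toMatrix bV bV (res 1) = 1 := by rw [hres1, LinearMap.toMatrix_id]
    have hm2 : ∀ g h, LinearMap.toMatrix bV bV (res (g * h)) =
        LinearMap.toMatrix bV bV (res g) * LinearMap.toMatrix bV bV (res h) := by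
      intro g h
      rw [hresm, LinearMap.toMatrix_comp bV bV bV]
    refine ⟨{ toFun := fun g => LinearMap.toMatrix bV bV (res g), map_one' := hm1, map_mul' := hm2 },
      fun g => ?_, fun i j => ?_⟩
    · exact (LinearMap.trace_eq_matrix_trace k bV (res g)).symm
    · -- the coordinate functional
      let ψ : (Fin n → k) →ₗ[k] k := (bV.coord i) ∘ₗ (Submodule.projectionOnto V V' hVV')
      refine ⟨fun s => ψ (Pi.single s 1), bV j, fun g => ?_⟩
      show LinearMap.toMatrix bV bV (res g) i j = _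
      rw [LinearMap.toMatrix_apply]
      have e1 : ψ ((ρ g : Matrix (Fin n) (Fin n) k) *ᵥ (bV j : Fin n → k)) = bV.repr (res g (bV j)) i := by
        have e2 : (ρ g : Matrix (Fin n) (Fin n) k) *ᵥ (bV j : Fin n → k) = ((res g (bV j) : V) : Fin n → k) :=
          (toEnd_apply ρ g _).symm
        rw [e2]
        show bV.coord i (Submodule.projectionOnto V V' hVV' ((res g (bV j) : V) : Fin n → k)) = _
        rw [Submodule.projectionOnto_apply_left]
        rfl
      rw [← e1]
      rw [dotProduct]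
      conv_lhs => rw [LinearMap.pi_apply_eq_sum_univ ψ]
      refine Finset.sum_congr rfl fun s _ => ?_
      rw [smul_eq_mul, mul_comm]
      congr 2
      funext t
      rw [Pi.single_apply]
      by_cases h : s = t
      · rw [if_pos h, if_pos h.symm]
      · rw [if_neg h, if_neg (Ne.symm h)]
  obtain ⟨r₁, ht1, hc1⟩ := key W W' hW hc
  obtain ⟨r₂, ht2, hc2⟩ := key W' W hW' hc.symm
  refine ⟨finrank k W, finrank k W', ?_, ?_, ?_, r₁, r₂, fun g => ?_, hc1, hc2⟩
  · rw [Module.finrank_pos_iff, Submodule.nontrivial_iff_ne_bot]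
    exact hWb
  · rw [Module.finrank_pos_iff, Submodule.nontrivial_iff_ne_bot]
    intro h
    apply hWt
    rw [h] at hc
    have := hc.sup_eq_top
    rwa [sup_bot_eq] at this
  · have := Submodule.finrank_add_eq_of_isCompl hc
    rwa [Module.finrank_fin_fun] at this
  · rw [ht1, ht2]
    have e3 : (ρ g : Matrix (Fin n) (Fin n) k).trace = LinearMap.trace k (Fin n → k) (toEnd ρ g) :=
      (Matrix.trace_toLin'_eq _).symm
    rw [e3, ← LinearMap.trace_prodMap']
    rw [← LinearMap.trace_conj' _ (Submodule.prodEquivOfIsCompl W W' hc)]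
    congr 1
    apply LinearMap.ext
    intro v
    obtain ⟨⟨x, y⟩, rfl⟩ := (Submodule.prodEquivOfIsCompl W W' hc).surjective v
    rw [LinearEquiv.conj_apply, LinearMap.comp_apply, LinearMap.comp_apply, LinearEquiv.coe_coe,
      LinearEquiv.coe_coe, LinearEquiv.symm_apply_apply, LinearMap.prodMap_apply,
      Submodule.coe_prodEquivOfIsCompl', Submodule.coe_prodEquivOfIsCompl', map_add]
    rfl

end split

end Pool.Agent.H499.IR
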