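import Pool.Agent.H499.IR.Split
import Pool.Agent.H499.PW.Thm

/-! Irreducibility and representations modulo powers of `ℓ`: the Galois theorems. -/

set_option autoImplicit false
set_option linter.all false

namespace Pool.Agent.H499.IR

open Matrix Module NumberField IsDedekindDomain Topology Filter IsLocalRing
open Pool.Agent.X320.DS (Semisimple Stable toEnd toEnd_apply)
open Pool.Agent.W401.Cheb (GK IsFrob IsInert)
open Pool.Agent.H499.CM Pool.Agent.H499.PW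

variable {K : Type} [Field K] [NumberField K] {ℓ : ℕ} [Fact ℓ.Prime] {n : ℕ}

/-- places outside a finite set -/
theorem few_all {S : Set (HeightOneSpectrum (𝓞 K))} (hS : S.Finite) {Bad : HeightOneSpectrum (𝓞 K) → Prop} {δ : ℝ}
    (h : UpperDensityLE (fun v => v ∉ S ∧ Bad v) δ) {M : ℝ} (hM : 0 ≤ M) (hδ : δ * M < 1) :
    ∃ δ' : ℝ, M * δ' < 1 ∧ Few (fun v => v ∈ S ∨ Bad v) δ' := by
  obtain ⟨η, hη, hη2⟩ : ∃ η : ℝ, 0 < η ∧ M * (δ + 2 * η) < 1 := by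
    refine ⟨(1 - δ * M) / (4 * (M + 1)), div_pos (by linarith) (by linarith), ?_⟩
    have h1 : 0 < M + 1 := by linarith
    have h2 : M * (2 * ((1 - δ * M) / (4 * (M + 1)))) ≤ (1 - δ * M) / 2 := by
      have : M * (2 * ((1 - δ * M) / (4 * (M + 1)))) = (M / (M + 1)) * ((1 - δ * M) / 2) := by
        field_simp
        ring
      rw [this]
      have h3 : M / (M + 1) ≤ 1 := by rw [div_le_one h1]; linarith
      have h4 : 0 ≤ (1 - δ * M) / 2 := by linarith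
      nlinarith
    nlinarith
  refine ⟨δ + 2 * η, hη2, ?_⟩
  have h1 := few_of_density h (show δ < δ + η by linarith)
  have h2 : Few (fun v : HeightOneSpectrum (𝓞 K) => v ∈ S) η :=
    ((Pool.Agent.X320.DS.dens_finite S hS).eventually (gt_mem_nhds hη)).mono fun N hN => hN.le
  have h3 := Few.mono (h2.or h1) (Q := fun v => v ∈ S ∨ Bad v) fun v hv => by
    by_cases hvS : v ∈ S
    · exact Or.inl hvS
    · rcases hv with hv | hv
      · exact Or.inl hv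
      · exact Or.inr ⟨hvS, hv⟩
  have e : η + (δ + η) = δ + 2 * η := by ring
  rwa [e] at h3

/-- the combination of the traces is correct at `v` -/
def CombMod {R : Type} [CommRing R] (q : OO ℓ →+* R) {k : ℕ} {d : Fin k → ℕ} (c : Fin k → R)
    (r : ∀ i, GK K →* GL (Fin (d i)) R) (v : HeightOneSpectrum (𝓞 K)) (a : Fin n → PadicAlgCl ℓ) : Prop :=
  ∃ t : OO ℓ, (t : PadicAlgCl ℓ) = ∑ i, a i ∧ ∀ σ, IsFrob v σ →
    ∑ i, c i * (r i σ⁻¹ : Matrix (Fin (d i)) (Fin (d i)) R).trace = q t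

theorem no_small {S : Set (HeightOneSpectrum (𝓞 K))} (hS : S.Finite)
    {α : HeightOneSpectrum (𝓞 K) → Fin n → PadicAlgCl ℓ} {strict : Bool}
    {ρ : GK K →* GL (Fin n) (PadicAlgCl ℓ)} (hρ : Attached S α strict ρ) (g : Fin (n ^ 2) → GK K) (m : ℕ)
    (hg : ‖(ℓ : PadicAlgCl ℓ)‖ ^ m < ‖gram ρ g‖) {k : ℕ} (d : Fin k → ℕ) (c : Fin k → RR ℓ m)
    (r : ∀ i, GK K →* GL (Fin (d i)) (RR ℓ m)) (δ : ℝ) (hd : ∑ i, d i ^ 2 < n ^ 2)
    (hr : ∀ i, IsOpen ((r i).ker : Set (GK K))) (hδ : δ * ((n ^ 2 + ∑ i, d i ^ 2 : ℕ) : ℝ) < 1)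
    (h : UpperDensityLE (fun v => v ∉ S ∧ ¬ CombMod (mk m) c r v (α v)) δ) : False := by
  obtain ⟨N, hN⟩ := exists_model ρ hρ.1
  obtain ⟨δ', hδ', hfew⟩ := few_all hS h (Nat.cast_nonneg _) hδ
  refine not_comb hN g m hg d c r hd fun σ => ?_
  rw [← redRep_trace]
  refine comb_eq_galois (chain_RR m) (redRep N m) (hN.isOpen_ker hρ.1 m) d c r hr _ δ' hδ' hfew
    (fun v hv τ hτ => ?_) σ
  push Not at hv
  obtain ⟨hvS, t, ht, ht2⟩ := hv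
  rw [ht2 τ hτ, redRep_trace]
  congr 1
  apply Subtype.ext
  rw [hN.trace, trace_of_corr (hρ.2.2 v hvS) hτ]
  exact ht.symm

/-- `ρ` is a sum of two representations modulo `ℓ ^ m` -/
def TwoMod {R : Type} [CommRing R] (q : OO ℓ →+* R) {a b : ℕ} (r₁ : GK K →* GL (Fin a) R) (r₂ : GK K →* GL (Fin b) R)
    (v : HeightOneSpectrum (𝓞 K)) (x : Fin n → PadicAlgCl ℓ) : Prop :=
  ∃ t : OO ℓ, (t : PadicAlgCl ℓ) = ∑ i, x i ∧ ∀ σ, IsFrob v σ →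
    (r₁ σ⁻¹ : Matrix (Fin a) (Fin a) R).trace + (r₂ σ⁻¹ : Matrix (Fin b) (Fin b) R).trace = q t

theorem cont_of_entries {ρ : GK K →* GL (Fin n) (PadicAlgCl ℓ)} (hρ : Continuous ρ) {a : ℕ}
    (r : GK K →* Matrix (Fin a) (Fin a) (PadicAlgCl ℓ))
    (h : ∀ i j, ∃ (φ w : Fin n → PadicAlgCl ℓ), ∀ g, r g i j =
      φ ⬝ᵥ ((ρ g : Matrix (Fin n) (Fin n) (PadicAlgCl ℓ)) *ᵥ w)) : Continuous r.toHomUnits := by
  have hρ' : Continuous fun g => (ρ g : Matrix (Fin n) (Fin n) (PadicAlgCl ℓ)) := Units.continuous_val.comp hρ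
  have hr : Continuous fun g => r g := by
    refine continuous_matrix fun i j => ?_
    obtain ⟨φ, w, hφ⟩ := h i j
    simp only [hφ]
    exact continuous_const.dotProduct (hρ'.matrix_mulVec continuous_const)
  rw [Units.continuous_iff]
  refine ⟨hr, ?_⟩
  have e : ((fun u : GL (Fin a) (PadicAlgCl ℓ) => ((u⁻¹ : GL (Fin a) (PadicAlgCl ℓ)) :
      Matrix (Fin a) (Fin a) (PadicAlgCl ℓ))) ∘ r.toHomUnits) = fun x => r x⁻¹ := by
    funext x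
    show (((r.toHomUnits x)⁻¹ : GL (Fin a) (PadicAlgCl ℓ)) : Matrix (Fin a) (Fin a) (PadicAlgCl ℓ)) = _
    rw [← map_inv]
    rfl
  show Continuous ((fun u : GL (Fin a) (PadicAlgCl ℓ) => ((u⁻¹ : GL (Fin a) (PadicAlgCl ℓ)) :
    Matrix (Fin a) (Fin a) (PadicAlgCl ℓ))) ∘ r.toHomUnits)
  rw [e]
  exact hr.comp continuous_inv

/-- a reducible representation is a sum modulo all powers of `ℓ` -/
theorem splits {S : Set (HeightOneSpectrum (𝓞 K))}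
    {α : HeightOneSpectrum (𝓞 K) → Fin n → PadicAlgCl ℓ} {strict : Bool}
    {ρ : GK K →* GL (Fin n) (PadicAlgCl ℓ)} (hρ : Attached S α strict ρ) (hn : 0 < n) (hirr : ¬ Irr ρ) :
    ∃ (a b : ℕ), 0 < a ∧ 0 < b ∧ a + b = n ∧ ∀ m, ∃ (r₁ : GK K →* GL (Fin a) (RR ℓ m))
      (r₂ : GK K →* GL (Fin b) (RR ℓ m)), IsOpen (r₁.ker : Set (GK K)) ∧ IsOpen (r₂.ker : Set (GK K)) ∧
      ∀ v ∉ S, TwoMod (mk m) r₁ r₂ v (α v) := by
  obtain ⟨a, b, ha, hb, hab, r₁, r₂, htr, h1, h2⟩ := exists_split hρ.2.1 hn hirr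
  have hc1 := cont_of_entries hρ.1 r₁ h1
  have hc2 := cont_of_entries hρ.1 r₂ h2
  obtain ⟨N₁, hN₁⟩ := exists_model _ hc1
  obtain ⟨N₂, hN₂⟩ := exists_model _ hc2
  refine ⟨a, b, ha, hb, hab, fun m => ⟨redRep N₁ m, redRep N₂ m, hN₁.isOpen_ker hc1 m, hN₂.isOpen_ker hc2 m,
    fun v hv => ?_⟩⟩
  obtain ⟨σ0, hσ0⟩ := Pool.Agent.W401.Frob.exists_frob v
  refine ⟨(N₁ σ0⁻¹).trace + (N₂ σ0⁻¹).trace, ?_, fun σ hσ => ?_⟩
  · have e : (((N₁ σ0⁻¹).trace + (N₂ σ0⁻¹).trace : OO ℓ) : PadicAlgCl ℓ) =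
        ((N₁ σ0⁻¹).trace : PadicAlgCl ℓ) + ((N₂ σ0⁻¹).trace : PadicAlgCl ℓ) := rfl
    rw [e, hN₁.trace, hN₂.trace, ← trace_of_corr (hρ.2.2 v hv) hσ0]
    exact htr σ0⁻¹
  · rw [redRep_trace, redRep_trace, ← map_add]
    congr 1
    apply Subtype.ext
    have e : ∀ τ, (((N₁ τ).trace + (N₂ τ).trace : OO ℓ) : PadicAlgCl ℓ) =
        (ρ τ : Matrix (Fin n) (Fin n) (PadicAlgCl ℓ)).trace := by
      intro τ
      have e1 : (((N₁ τ).trace + (N₂ τ).trace : OO ℓ) : PadicAlgCl ℓ) =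
        ((N₁ τ).trace : PadicAlgCl ℓ) + ((N₂ τ).trace : PadicAlgCl ℓ) := rfl
      rw [e1, hN₁.trace, hN₂.trace]
      exact htr τ
    rw [e, e, trace_of_corr (hρ.2.2 v hv) hσ, trace_of_corr (hρ.2.2 v hv) hσ0]

/-- a sum of two representations as a small combination -/
theorem two_to_comb {R : Type} [CommRing R] (q : OO ℓ →+* R) {a b : ℕ} (r₁ : GK K →* GL (Fin a) R)
    (r₂ : GK K →* GL (Fin b) R) (v : HeightOneSpectrum (𝓞 K)) (x : Fin n → PadicAlgCl ℓ) (h : TwoMod q r₁ r₂ v x) :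
    CombMod (k := 2) (d := Fin.cons a (Fin.cons b Fin.elim0)) q (fun _ => 1)
      (Fin.cons r₁ (Fin.cons r₂ fun i => Fin.elim0 i)) v x := by
  obtain ⟨t, ht, h2⟩ := h
  refine ⟨t, ht, fun σ hσ => ?_⟩
  rw [← h2 σ hσ, Fin.sum_univ_two, one_mul, one_mul]
  rfl

theorem exists_pow_lt {x : PadicAlgCl ℓ} (hx : x ≠ 0) : ∃ m : ℕ, ‖(ℓ : PadicAlgCl ℓ)‖ ^ m < ‖x‖ :=
  exists_pow_lt_of_lt_one (norm_pos_iff.2 hx) norm_ell_lt

/-- representations with congruent traces -/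
theorem irr_near {S : Set (HeightOneSpectrum (𝓞 K))} (hS : S.Finite)
    {α α' : HeightOneSpectrum (𝓞 K) → Fin n → PadicAlgCl ℓ} {strict : Bool} (hn : 0 < n)
    {ρ ρ' : GK K →* GL (Fin n) (PadicAlgCl ℓ)} (hρ : Attached S α strict ρ) (hρ' : Attached S α' strict ρ')
    (g : Fin (n ^ 2) → GK K) (m : ℕ) (hg : ‖(ℓ : PadicAlgCl ℓ)‖ ^ m < ‖gram ρ g‖) (δ : ℝ)
    (hδ : δ * (2 * n ^ 2) < 1) (h : UpperDensityLE (fun v => v ∉ S ∧
      ¬ ‖∑ i, α v i - ∑ i, α' v i‖ ≤ ‖(ℓ : PadicAlgCl ℓ)‖ ^ m) δ) : Irr ρ' ∧ ‖gram ρ' g‖ = ‖gram ρ g‖ := by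
  obtain ⟨N, hN⟩ := exists_model ρ hρ.1
  obtain ⟨N', hN'⟩ := exists_model ρ' hρ'.1
  obtain ⟨δ', hδ', hfew⟩ := few_all hS h (by positivity) hδ
  have key : ∀ σ, mk m (N σ).trace = mk m (N' σ).trace := by
    intro σ
    have h1 := comb_eq_galois (chain_RR m) (redRep N m) (hN.isOpen_ker hρ.1 m) (k := 1) (fun _ => n) (fun _ => 1)
      (fun _ => redRep N' m) (fun _ => hN'.isOpen_ker hρ'.1 m) _ δ' (by
        have e : ((n ^ 2 + ∑ i : Fin 1, n ^ 2 : ℕ) : ℝ) = 2 * n ^ 2 := by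
          rw [Fin.sum_univ_one]
          push_cast
          ring
        rw [e]
        exact hδ') hfew (fun v hv τ hτ => by
        rw [Fin.sum_univ_one, one_mul, redRep_trace, redRep_trace, mk_eq, hN.trace, hN'.trace]
        push Not at hv
        rw [trace_of_corr (hρ.2.2 v hv.1) hτ, trace_of_corr (hρ'.2.2 v hv.1) hτ]
        exact hv.2) σ
    rw [Fin.sum_univ_one, one_mul, redRep_trace, redRep_trace] at h1
    exact h1
  have h2 := gram_near hN hN' g m hg key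
  haveI : NeZero n := ⟨hn.ne'⟩
  refine ⟨irr_of_gram (g := g) fun h0 => ?_, h2⟩
  rw [h0, norm_zero] at h2
  have := pow_nonneg (norm_nonneg (ℓ : PadicAlgCl ℓ)) m
  linarith

/-- the version with finitely many places -/
theorem irr_near_finite {S : Set (HeightOneSpectrum (𝓞 K))} {U : Subgroup (GK K)}
    {P : Finset (HeightOneSpectrum (𝓞 K))} (hP : Determines K ℓ n S U P) (hn : 0 < n)
    {ρ ρ' : GK K →* GL (Fin n) (PadicAlgCl ℓ)} (hρ : AdmAdic S U ρ) (hρ' : AdmAdic S U ρ')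
    (g : Fin (n ^ 2) → GK K) (m : ℕ) (hg : ‖(ℓ : PadicAlgCl ℓ)‖ ^ m < ‖gram ρ g‖)
    (h : ∀ v ∈ P, ∀ σ, IsFrob v σ → ‖(ρ σ⁻¹ : Matrix (Fin n) (Fin n) (PadicAlgCl ℓ)).trace -
      (ρ' σ⁻¹ : Matrix (Fin n) (Fin n) (PadicAlgCl ℓ)).trace‖ ≤ ‖(ℓ : PadicAlgCl ℓ)‖ ^ m) :
    Irr ρ' ∧ ‖gram ρ' g‖ = ‖gram ρ g‖ := by
  obtain ⟨N, hN⟩ := exists_model ρ hρ.1
  obtain ⟨N', hN'⟩ := exists_model ρ' hρ'.1
  have h1 := isometry hP ρ ρ' hρ hρ' _ (pow_nonneg (norm_nonneg _) _) h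
  have h2 := gram_near hN hN' g m hg fun σ => by
    rw [mk_eq, hN.trace, hN'.trace]
    exact h1 σ
  haveI : NeZero n := ⟨hn.ne'⟩
  refine ⟨irr_of_gram (g := g) fun h0 => ?_, h2⟩
  rw [h0, norm_zero] at h2
  have := pow_nonneg (norm_nonneg (ℓ : PadicAlgCl ℓ)) m
  linarith

/-- torsion representations with finitely many correct traces -/
theorem no_small_finite {S : Set (HeightOneSpectrum (𝓞 K))} {U : Subgroup (GK K)}
    {P : Finset (HeightOneSpectrum (𝓞 K))} (hP : Determines K ℓ n S U P)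
    {ρ : GK K →* GL (Fin n) (PadicAlgCl ℓ)} (hρ : AdmAdic S U ρ)
    (g : Fin (n ^ 2) → GK K) (m : ℕ) (hg : ‖(ℓ : PadicAlgCl ℓ)‖ ^ m < ‖gram ρ g‖)
    (R : GK K →* GL (Fin n) (RR ℓ m)) (hR : AdmMod S U (mk m) R)
    (h : ∀ v ∈ P, ∀ σ, IsFrob v σ → ∃ t : OO ℓ, (t : PadicAlgCl ℓ) =
      (ρ σ⁻¹ : Matrix (Fin n) (Fin n) (PadicAlgCl ℓ)).trace ∧
      (R σ⁻¹ : Matrix (Fin n) (Fin n) (RR ℓ m)).trace = mk m t)
    {k : ℕ} (d : Fin k → ℕ) (c : Fin k → RR ℓ m) (r : ∀ i, GK K →* GL (Fin (d i)) (RR ℓ m))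
    (hd : ∑ i, d i ^ 2 < n ^ 2) (htr : ∀ σ, (R σ : Matrix (Fin n) (Fin n) (RR ℓ m)).trace =
      ∑ i, c i * (r i σ : Matrix (Fin (d i)) (Fin (d i)) (RR ℓ m)).trace) : False := by
  obtain ⟨N, hN⟩ := exists_model ρ hρ.1
  have h1 := determ_mod hP m (redRep N m) R (adm_redRep hN hρ m) hR fun v hv σ hσ => by
    obtain ⟨t, ht, ht2⟩ := h v hv σ hσ
    rw [ht2, redRep_trace]
    congr 1
    apply Subtype.ext
    rw [ht, hN.trace]
  exact not_comb hN g m hg d c r hd fun σ => by rw [← redRep_trace, h1 σ, htr σ]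

end Pool.Agent.H499.IR
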